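import Pool.Agent.H59.IndGrowthProof

set_option autoImplicit false

namespace Pool.Agent.Results.MP_9e0f03_co.IndGrowth

open Pool.Agent.H59.IndGrowth

/-- There are sum closed permutation classes whose indecomposables have upper growth rate
arbitrarily close to, but strictly larger than, one. -/
theorem result : ∀ γ : ℝ, 1 < γ → ∃ C : PermSet, IsClass C ∧ SumClosed C ∧
    1 < upperGrowth (ind C) ∧ upperGrowth (ind C) < ENNReal.ofReal γ :=
  main

end Pool.Agent.Results.MP_9e0f03_co.IndGrowth
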